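import Pool.Agent.MP_856573_co.H74.Bas

/-! The path theorem inside a hexagon around a vertex. -/

namespace Pool.Agent.MP_856573_co.H74

open Set
open Pool.Agent.MP_31805c_co.H47 (Mac)
open Pool.Agent.MP_31805c_co.H93 (Conn)

namespace HexAux

variable {V : Type} {G : SimpleGraph V}

theorem two {W S Z Z' : Set V} {u w v : V} (h : S ⊆ {u, w}) (hu : u ∈ Z) (hw : w ∈ Z')
    [Fintype V] : (At G W S v).ncard ≤ tc G W Z v + tc G W Z' v := by
  have h1 : At G W S v ⊆ At G W {u} v ∪ At G W {w} v := by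
    rw [← At.union]
    exact At.mono Subset.rfl h
  refine (ncard_le_ncard h1 (toFinite _)).trans ((ncard_union_le _ _).trans ?_)
  rw [← tc_single, ← tc_single]
  exact add_le_add (tc_mono fun k => k.mono (At.mono Subset.rfl (singleton_subset_iff.2 hu)))
    (tc_mono fun k => k.mono (At.mono Subset.rfl (singleton_subset_iff.2 hw)))

/-- The hexagon, numbered from the first end. -/
structure Hx (G : SimpleGraph V) (U : Set V) (t0 : V) (q : ℕ → V) (β : ℕ) : Prop where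
  inj : ∀ i < 6, ∀ j < 6, q i = q j → i = j
  ht : ∀ i, G.Adj t0 (q i)
  adj : ∀ i < 6, (i = 0 ∧ β = 1) ∨ (i = 5 ∧ β = 5) ∨ G.Adj (q i) (q (i + 1))
  six : q 6 = q 0
  mem : ∀ i < 6, q i ∈ U ↔ i = 0 ∨ i = β
  b0 : 0 < β
  b6 : β < 6
  nt : t0 ∉ U
  tU : ∀ u ∈ U, G.Adj t0 u → u = q 0 ∨ u = q β

variable {U : Set V} {t0 : V} {q : ℕ → V} {β : ℕ}

theorem Hx.cn (H : Hx G U t0 q β) {l r : ℕ} (hl : 0 < l) (hr : r ≤ 6) : Cn G (q '' Ico l r) := by
  refine cn_of (q l) ?_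
  rintro _ ⟨n, ⟨h1, h2⟩, rfl⟩
  induction n, h1 using Nat.le_induction with
  | base => exact Conn.refl _ _
  | succ k hk ih =>
    have := (H.adj k (by omega)).resolve_left (by omega) |>.resolve_left (by omega)
    exact Conn.trans (Conn.adj this.symm ⟨k + 1, ⟨by omega, h2⟩, rfl⟩ ⟨k, ⟨hk, by omega⟩, rfl⟩)
      (ih (by omega))

theorem Hx.dU (H : Hx G U t0 q β) {l r : ℕ} (hl : 0 < l) (hr : r ≤ 6) (h : r ≤ β ∨ β < l) :
    Disjoint (q '' Ico l r) U := by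
  rw [disjoint_left]
  rintro _ ⟨n, ⟨h1, h2⟩, rfl⟩ hn
  have := (H.mem n (by omega)).1 hn
  omega

theorem Hx.dd (H : Hx G U t0 q β) {l r l' r' : ℕ} (hr : r ≤ 6) (hr' : r' ≤ 6)
    (h : r ≤ l ∨ r ≤ l' ∨ r' ≤ l) : Disjoint (q '' Ico l r) (q '' Ico l' r') := by
  rw [disjoint_left]
  rintro _ ⟨n, ⟨h1, h2⟩, rfl⟩ ⟨k, ⟨h3, h4⟩, e⟩
  have := H.inj k (by omega) n (by omega) e
  omega

theorem Hx.dt (H : Hx G U t0 q β) (J : Set ℕ) : t0 ∉ q '' J := by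
  rintro ⟨n, -, e⟩
  exact (H.ht n).ne e.symm

variable [Fintype V] [DecidableEq V]

theorem Hx.key (H : Hx G U t0 q β) (tp : TPall) (hm : Mac G) (hc : Conn G U (q 0) (q β)) (t : V)
    (S : Set V) (l0 r0 l1 r1 l2 r2 : ℕ) (p0 : 0 < l0 ∧ r0 ≤ 6 ∧ (r0 ≤ β ∨ β < l0))
    (p1 : 0 < l1 ∧ l1 < r1 ∧ r1 ≤ 6 ∧ (r1 ≤ β ∨ β < l1))
    (p2 : 0 < l2 ∧ l2 < r2 ∧ r2 ≤ 6 ∧ (r2 ≤ β ∨ β < l2))
    (d1 : r0 ≤ l0 ∨ r0 ≤ l1 ∨ r1 ≤ l0) (d2 : r0 ≤ l0 ∨ r0 ≤ l2 ∨ r2 ≤ l0)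
    (d3 : (l1 = l2 ∧ r1 = r2) ∨ (r0 ≤ l0 ∧ (r1 = l2 ∨ r2 = l1))) (a1 : l1 = 1 ∨ r1 = 6)
    (a2 : r2 = β ∨ l2 = β + 1)
    (hS : (∃ u ∈ insert t0 (q '' Ico l0 r0), ∃ w ∈ q '' Ico l1 r1, S ⊆ {u, w}) ∨
      ∃ u ∈ q '' Ico l1 r1, ∃ w ∈ q '' Ico l2 r2 \ q '' Ico l1 r1, S ⊆ {u, w}) :
    ∃ P ⊆ U, HP G P (q 0) (q β) ∧ ∀ v ∈ U \ P,
      (At G (U \ P) P v).ncard + (At G (U \ P) S v).ncard ≤ 3 ∧
      (v = t → (At G (U \ P) P v).ncard + (At G (U \ P) S v).ncard ≤ 2 ∨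
        (At G (U \ P) P v).ncard ≤ 1) := by
  have b0 := H.b0
  have b6 := H.b6
  have ad : ∀ i < 6, ¬ (i = 0 ∧ β = 1) → ¬ (i = 5 ∧ β = 5) → G.Adj (q i) (q (i + 1)) :=
    fun i hi h1 h2 => ((H.adj i hi).resolve_left h1).resolve_left h2
  have fr : Fr G U (q 0) (q β) (insert t0 (q '' Ico l0 r0)) (q '' Ico l1 r1) (q '' Ico l2 r2) :=
    { mac := hm
      hA := (H.mem 0 (by omega)).2 (Or.inl rfl)
      hB := (H.mem β b6).2 (Or.inr rfl)
      ne := fun e => by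
        have := H.inj 0 (by omega) β b6 e
        omega
      conn := hc
      d0 := disjoint_insert_left.2 ⟨H.nt, H.dU p0.1 p0.2.1 p0.2.2⟩
      d1 := H.dU p1.1 p1.2.2.1 p1.2.2.2
      d2 := H.dU p2.1 p2.2.2.1 p2.2.2.2
      d01 := disjoint_insert_left.2 ⟨H.dt _, H.dd p0.2.1 p1.2.2.1 d1⟩
      d02 := disjoint_insert_left.2 ⟨H.dt _, H.dd p0.2.1 p2.2.2.1 d2⟩
      d12 := by
        rcases d3 with ⟨rfl, rfl⟩ | ⟨-, d⟩
        · exact Or.inl rfl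
        · refine Or.inr ⟨H.dd p1.2.2.1 p2.2.2.1 (by omega), ?_⟩
          rcases d with d | d
          · exact ⟨_, ⟨l2 - 1, ⟨by omega, by omega⟩, rfl⟩, _, ⟨l2 - 1 + 1, ⟨by omega, by omega⟩, rfl⟩,
              ad _ (by omega) (by omega) (by omega)⟩
          · exact ⟨_, ⟨l1 - 1 + 1, ⟨by omega, by omega⟩, rfl⟩, _, ⟨l1 - 1, ⟨by omega, by omega⟩, rfl⟩,
              (ad _ (by omega) (by omega) (by omega)).symm⟩
      c0 := by
        refine cn_of t0 ?_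
        rintro _ (rfl | ⟨n, hn, rfl⟩)
        · exact Conn.refl _ _
        · exact Conn.adj (H.ht n).symm (Or.inr ⟨n, hn, rfl⟩) (Or.inl rfl)
      c1 := H.cn p1.1 p1.2.2.1
      c2 := H.cn p2.1 p2.2.2.1
      a0 := ⟨t0, Or.inl rfl, _, rfl, H.ht 0⟩
      b0 := ⟨t0, Or.inl rfl, _, rfl, H.ht β⟩
      a1 := by
        rcases a1 with d | d
        · exact ⟨_, ⟨0 + 1, ⟨by omega, by omega⟩, rfl⟩, _, rfl,
            (ad 0 (by omega) (by omega) (by omega)).symm⟩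
        · exact ⟨_, ⟨5, ⟨by omega, by omega⟩, rfl⟩, _, rfl,
            H.six ▸ ad 5 (by omega) (by omega) (by omega)⟩
      b2 := by
        rcases a2 with d | d
        · have := ad (β - 1) (by omega) (by omega) (by omega)
          rw [show β - 1 + 1 = β by omega] at this
          exact ⟨_, ⟨β - 1, ⟨by omega, by omega⟩, rfl⟩, _, rfl, this⟩
        · exact ⟨_, ⟨β + 1, ⟨by omega, by omega⟩, rfl⟩, _, rfl,
            (ad β (by omega) (by omega) (by omega)).symm⟩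
      e1 := ⟨t0, Or.inl rfl, _, ⟨l1, ⟨le_rfl, p1.2.1⟩, rfl⟩, H.ht _⟩
      e2 := ⟨t0, Or.inl rfl, _, ⟨l2, ⟨le_rfl, p2.2.1⟩, rfl⟩, H.ht _⟩ }
  have md : Mode G U (q 0) (q β) (insert t0 (q '' Ico l0 r0)) (q '' Ico l1 r1) (q '' Ico l2 r2)
      t := by
    rcases d3 with ⟨rfl, rfl⟩ | ⟨d, -⟩
    · exact Or.inr (Or.inl rfl)
    · refine Or.inr (Or.inr ?_)
      rintro u hu _ (rfl | ⟨n, ⟨h1, h2⟩, rfl⟩) h
      · exact H.tU u hu h
      · omega
  obtain ⟨P, hP, hp, hv⟩ := tp V (U.ncard + 1) G U _ _ _ _ _ t (Nat.lt_succ_self _) fr md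
  refine ⟨P, hP, hp, fun v h => ?_⟩
  obtain ⟨k1, k2⟩ := hv v h
  have : (At G (U \ P) P v).ncard + (At G (U \ P) S v).ncard ≤
      cnt G U P (insert t0 (q '' Ico l0 r0)) (q '' Ico l1 r1) (q '' Ico l2 r2) v := by
    unfold cnt
    rcases hS with ⟨u, hu, w, hw, s⟩ | ⟨u, hu, w, hw, s⟩
    · have := two (G := G) (W := U \ P) (v := v) s hu hw
      omega
    · have := two (G := G) (W := U \ P) (v := v) s hu hw
      omega
  exact ⟨this.trans k1, fun e => (k2 e).imp_left this.trans⟩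

theorem Hx.pair (H : Hx G U t0 q β) (tp : TPall) (hm : Mac G) (hc : Conn G U (q 0) (q β)) (t : V)
    (S : Set V) {x y : ℕ} (h0 : 0 < x) (hxy : x ≤ y) (h6 : y < 6) (hx : x ≠ β) (hy : y ≠ β)
    (hS : S ⊆ {q x, q y}) :
    ∃ P ⊆ U, HP G P (q 0) (q β) ∧ ∀ v ∈ U \ P,
      (At G (U \ P) P v).ncard + (At G (U \ P) S v).ncard ≤ 3 ∧
      (v = t → (At G (U \ P) P v).ncard + (At G (U \ P) S v).ncard ≤ 2 ∨
        (At G (U \ P) P v).ncard ≤ 1) := by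
  have b0 := H.b0
  have b6 := H.b6
  rcases hxy.eq_or_lt with rfl | hlt
  · have s : S ⊆ {t0, q x} := hS.trans (by simp)
    rcases hx.lt_or_gt with h | h
    · exact H.key tp hm hc t S 1 0 1 β 1 β (by omega) (by omega) (by omega) (by omega) (by omega)
        (by omega) (by omega) (by omega)
        (Or.inl ⟨_, Or.inl rfl, _, ⟨x, ⟨by omega, by omega⟩, rfl⟩, s⟩)
    · exact H.key tp hm hc t S 1 0 (β + 1) 6 (β + 1) 6 (by omega) (by omega) (by omega) (by omega)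
        (by omega) (by omega) (by omega) (by omega)
        (Or.inl ⟨_, Or.inl rfl, _, ⟨x, ⟨by omega, by omega⟩, rfl⟩, s⟩)
  · rcases hy.lt_or_gt with h | h
    · exact H.key tp hm hc t S 1 0 1 y y β (by omega) (by omega) (by omega) (by omega) (by omega)
        (by omega) (by omega) (by omega)
        (Or.inr ⟨_, ⟨x, ⟨by omega, by omega⟩, rfl⟩, _, ⟨⟨y, ⟨by omega, by omega⟩, rfl⟩,
          disjoint_left.1 (H.dd (l := y) (r := β) (by omega) (by omega) (by omega))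
            ⟨y, ⟨by omega, by omega⟩, rfl⟩⟩, hS⟩)
    · rcases hx.lt_or_gt with h' | h'
      · exact H.key tp hm hc t S 1 β (β + 1) 6 (β + 1) 6 (by omega) (by omega) (by omega)
          (by omega) (by omega) (by omega) (by omega) (by omega)
          (Or.inl ⟨_, Or.inr ⟨x, ⟨by omega, by omega⟩, rfl⟩, _, ⟨y, ⟨by omega, by omega⟩, rfl⟩, hS⟩)
      · exact H.key tp hm hc t S 1 0 y 6 (β + 1) y (by omega) (by omega) (by omega) (by omega)
          (by omega) (by omega) (by omega) (by omega)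
          (Or.inr ⟨_, ⟨y, ⟨by omega, by omega⟩, rfl⟩, _, ⟨⟨x, ⟨by omega, by omega⟩, rfl⟩,
            disjoint_left.1 (H.dd (l := β + 1) (r := y) (by omega) (by omega) (by omega))
              ⟨x, ⟨by omega, by omega⟩, rfl⟩⟩, hS.trans (pair_comm _ _).subset⟩)

theorem idx : ∀ a i : ZMod 6, ∃ n : Fin 6, i = a + ((n : ℕ) : ZMod 6) := by decide

theorem inj6 : ∀ (a : ZMod 6) (i j : Fin 6), a + ((i : ℕ) : ZMod 6) = a + ((j : ℕ) : ZMod 6) →
    i = j := by decide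

theorem edge6 : ∀ (a : ZMod 6) (i k : Fin 6),
    (a + ((i : ℕ) : ZMod 6) = a ∧ a + ((i : ℕ) : ZMod 6) + 1 = a + ((k : ℕ) : ZMod 6) →
      (i : ℕ) = 0 ∧ (k : ℕ) = 1) ∧
    (a + ((i : ℕ) : ZMod 6) = a + ((k : ℕ) : ZMod 6) ∧ a + ((i : ℕ) : ZMod 6) + 1 = a →
      (i : ℕ) = 5 ∧ (k : ℕ) = 5) := by decide

theorem small : ∀ (a b : ZMod 6) (X : Finset (ZMod 6)), X.card ≤ 2 → a ∉ X → b ∉ X →
    ∃ x y, x ≠ a ∧ x ≠ b ∧ y ≠ a ∧ y ≠ b ∧ X ⊆ {x, y} := by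
  intro a b X h ha hb
  have e : ∀ a b : ZMod 6, ∃ z : ZMod 6, z ≠ a ∧ z ≠ b := by decide
  obtain ⟨z, z1, z2⟩ := e a b
  have : X.card = 0 ∨ X.card = 1 ∨ X.card = 2 := by omega
  rcases this with h | h | h
  · exact ⟨z, z, z1, z2, z1, z2, by simp [Finset.card_eq_zero.1 h]⟩
  · obtain ⟨x, rfl⟩ := Finset.card_eq_one.1 h
    simp only [Finset.mem_singleton] at ha hb
    exact ⟨x, x, Ne.symm ha, Ne.symm hb, Ne.symm ha, Ne.symm hb, by simp⟩
  · obtain ⟨x, y, -, rfl⟩ := Finset.card_eq_two.1 h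
    simp only [Finset.mem_insert, Finset.mem_singleton, not_or] at ha hb
    exact ⟨x, y, Ne.symm ha.1, Ne.symm hb.1, Ne.symm ha.2, Ne.symm hb.2, Finset.Subset.refl _⟩

end HexAux

open HexAux in
theorem hex : StmtHEX := by
  intro tp V _ _ G U t0 t h a b X hm hi ht ha hab nt hU tU hc hX aX bX
  obtain ⟨β, rfl⟩ := idx a b
  have e0 : a + ((0 : ℕ) : ZMod 6) = a := by simp
  have ij : ∀ i < 6, ∀ j < 6, a + ((i : ℕ) : ZMod 6) = a + ((j : ℕ) : ZMod 6) → i = j :=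
    fun i hi j hj e => congrArg Fin.val (inj6 a ⟨i, hi⟩ ⟨j, hj⟩ e)
  have H : Hx G U t0 (fun n => h (a + (n : ZMod 6))) β :=
    { inj := fun i h1 j h2 e => ij i h1 j h2 (hi e)
      ht := fun i => ht _
      adj := fun i h1 => by
        rcases ha (a + (i : ZMod 6)) with k | k | k
        · exact Or.inl ((edge6 a ⟨i, h1⟩ β).1 k)
        · exact Or.inr (Or.inl ((edge6 a ⟨i, h1⟩ β).2 k))
        · exact Or.inr (Or.inr (by simpa only [Nat.cast_add, Nat.cast_one, add_assoc] using k))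
      six := by
        have : ((6 : ℕ) : ZMod 6) = ((0 : ℕ) : ZMod 6) := by decide
        simp only [this]
      mem := fun i h1 => (hU _).trans
        ⟨fun k => k.imp (fun k => ij i h1 0 (by omega) (k.trans e0.symm)) (ij i h1 β β.2),
          fun k => k.imp (fun k => by rw [k, e0]) fun k => by rw [k]⟩
      b0 := Nat.pos_of_ne_zero fun e => hab (by rw [e, e0])
      b6 := β.2
      nt := nt
      tU := by simpa only [e0] using tU }
  obtain ⟨x, y, x1, x2, y1, y2, s⟩ := small a _ X hX aX bX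
  obtain ⟨x, rfl⟩ := idx a x
  obtain ⟨y, rfl⟩ := idx a y
  have s' : h '' X ⊆ {h (a + ((x : ℕ) : ZMod 6)), h (a + ((y : ℕ) : ZMod 6))} := by
    rintro _ ⟨i, hi, rfl⟩
    have := s hi
    simp only [Finset.mem_insert, Finset.mem_singleton] at this
    rcases this with rfl | rfl
    exacts [Or.inl rfl, Or.inr rfl]
  have x0 : 0 < (x : ℕ) := Nat.pos_of_ne_zero fun e => x1 (by rw [e, e0])
  have y0 : 0 < (y : ℕ) := Nat.pos_of_ne_zero fun e => y1 (by rw [e, e0])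
  have xb : (x : ℕ) ≠ β := fun e => x2 (by rw [e])
  have yb : (y : ℕ) ≠ β := fun e => y2 (by rw [e])
  have hc' : Conn G U (h (a + ((0 : ℕ) : ZMod 6))) (h (a + ((β : ℕ) : ZMod 6))) := by rwa [e0]
  rcases le_total (x : ℕ) y with k | k
  · simpa only [e0] using H.pair tp hm hc' t _ x0 k y.2 xb yb s'
  · simpa only [e0] using H.pair tp hm hc' t _ y0 k x.2 yb xb (s'.trans (pair_comm _ _).subset)

end Pool.Agent.MP_856573_co.H74
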